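import Pool.Agent.V5helper14.FB.Core
import Pool.Agent.TH974.DegLog

/-!
# Project FB: the main induction, with the logarithmic factor
-/

set_option autoImplicit false

namespace Pool.Agent.V5helper14.FB.Lg

open Finset

section

variable {r k : ℕ} (H : SimpleGraph (Fin k)) (f : Fin k → ℕ)

open Classical in
/-- number of neighbours of `w` in the blocks before `i` -/
noncomputable def dg (i : ℕ) (w : Fin k) : ℕ := (univ.filter fun u => H.Adj w u ∧ f u < i).card

theorem dg_ncard (w : Fin k) : Set.ncard {u | H.Adj w u ∧ f u < f w} = dg H f (f w) w := by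
  classical
  unfold dg
  rw [Set.ncard_eq_toFinset_card']
  congr 1
  ext u
  simp

theorem dg_zero (w : Fin k) : dg H f 0 w = 0 := by
  classical
  unfold dg
  simp

theorem dg_mono {i j : ℕ} (h : i ≤ j) (w : Fin k) : dg H f i w ≤ dg H f j w := by
  classical
  unfold dg
  apply card_le_card
  intro u hu
  rw [mem_filter] at hu ⊢
  exact ⟨hu.1, hu.2.1, lt_of_lt_of_le hu.2.2 h⟩

theorem dg_succ_of_none {i : ℕ} {w : Fin k} (h : ∀ t, f t = i → ¬ H.Adj w t) :
    dg H f (i + 1) w = dg H f i w := by
  classical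
  unfold dg
  congr 1
  ext u
  simp only [mem_filter, mem_univ, true_and]
  constructor
  · rintro ⟨h1, h2⟩
    refine ⟨h1, ?_⟩
    rcases Nat.lt_succ_iff_lt_or_eq.1 h2 with h3 | h3
    · exact h3
    · exact absurd h1 (h u h3)
  · rintro ⟨h1, h2⟩
    exact ⟨h1, by omega⟩

theorem dg_succ_of_adj {i : ℕ} {w t : Fin k} (ht : f t = i) (hwt : H.Adj w t)
    (hu : ∀ t', f t' = i → H.Adj w t' → t' = t) : dg H f (i + 1) w = dg H f i w + 1 := by
  classical
  unfold dg
  have : (univ.filter fun u => H.Adj w u ∧ f u < i + 1) =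
      insert t (univ.filter fun u => H.Adj w u ∧ f u < i) := by
    ext u
    simp only [mem_filter, mem_univ, true_and, mem_insert]
    constructor
    · rintro ⟨h1, h2⟩
      rcases Nat.lt_succ_iff_lt_or_eq.1 h2 with h3 | h3
      · exact Or.inr ⟨h1, h3⟩
      · exact Or.inl (hu u h3 h1)
    · rintro (rfl | ⟨h1, h2⟩)
      · exact ⟨hwt, by omega⟩
      · exact ⟨h1, by omega⟩
  rw [this, card_insert_of_notMem]
  simp [ht]

end


/-- `y` is a good choice for the candidate set `S` of a vertex with `d` placed neighbours -/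
def Good {N : ℕ} (G : SimpleGraph (Fin N)) (r M : ℕ) (q : ℝ) (d : ℕ) (S : Finset (Fin N))
    (y : Fin N) : Prop :=
  ∃ S' ⊆ S, (∀ a ∈ S, G.Adj y a ↔ a ∈ S') ∧ (d + 1 < r → (M : ℝ) * q ^ (d + 1) ≤ S'.card) ∧
    0 < S'.card

/-- The invariant of the embedding. -/
def Inv {k N : ℕ} (r M : ℕ) (q : ℝ) (H : SimpleGraph (Fin k)) (G : SimpleGraph (Fin N))
    (f : Fin k → ℕ) (V : Fin k → Finset (Fin N)) (i : ℕ) (x : Fin k → Fin N)
    (A : Fin k → Finset (Fin N)) : Prop :=
  (∀ v, f v < i → x v ∈ V v) ∧
  (∀ u v, f u < i → f v < i → H.Adj u v → G.Adj (x u) (x v)) ∧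
  (∀ w, i ≤ f w → A w ⊆ V w) ∧
  (∀ w, i ≤ f w → ∀ u, f u < i → H.Adj w u → ∀ a ∈ A w, G.Adj (x u) a) ∧
  (∀ w, i ≤ f w → (dg H f i w < r → (M : ℝ) * q ^ (dg H f i w) ≤ (A w).card) ∧ 0 < (A w).card)

theorem step {r k n N M : ℕ} {q : ℝ} (H : SimpleGraph (Fin k))
    (G : SimpleGraph (Fin N)) (f g : Fin k → ℕ) (V : Fin k → Finset (Fin N)) (hn : 1 ≤ n)
    (hG : NoHole G n) (hg : Function.Injective g)
    (h1 : ∀ v u u', H.Adj v u → H.Adj v u' → f u = f v → f u' = f v → g u < g v → g u' < g v → u = u')
    (h2 : ∀ v u u', H.Adj v u → H.Adj v u' → f u = f u' → f u < f v → u = u')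
    (h3 : ∀ v, dg H f (f v) v + 1 ≤ r ∨ (dg H f (f v) v ≤ r ∧ ∀ u, H.Adj v u → f u < f v))
    (hV : ∀ s t, s ≠ t → Disjoint (V s) (V t)) (hq0 : 0 < q) (hq : q ≤ 1 / 8)
    (hM : (3 * n * k + 1 : ℝ) ≤ M * q ^ (r - 1))
    (hs : ∀ s : ℝ, (2 * n * k + 1 : ℝ) ≤ q * s → (n : ℝ) ≤ (1 - 4 * q) ^ n * s / 2)
    (i : ℕ) (x : Fin k → Fin N)
    (A : Fin k → Finset (Fin N)) (hI : Inv r M q H G f V i x A) :
    ∃ x' A', Inv r M q H G f V (i + 1) x' A' := by
  classical
  obtain ⟨P1, P2, P3, P4, P5⟩ := hI
  have hq1 : q ≤ 1 := by linarith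
  have hMq : ∀ b : ℕ, b < r → (3 * n * k + 1 : ℝ) ≤ M * q ^ b := by
    intro b hb
    refine le_trans hM (mul_le_mul_of_nonneg_left ?_ (Nat.cast_nonneg _))
    exact pow_le_pow_of_le_one hq0.le hq1 (by omega)
  have hnk : (0 : ℝ) ≤ n * k := by positivity
  have hle : ∀ v, dg H f (f v) v ≤ r := fun v => by
    rcases h3 v with h | h
    · omega
    · exact h.1
  have hAdisj : ∀ s t, i ≤ f s → i ≤ f t → s ≠ t → Disjoint (A s) (A t) := fun s t hs ht hst =>
    (hV s t hst).mono (P3 s hs) (P3 t ht)
  -- the vertices of the block which have few earlier neighbours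
  let Ba : Finset (Fin k) := univ.filter fun t => f t = i ∧ dg H f (f t) t + 1 ≤ r
  have hBa : ∀ t, f t = i → ∀ w, H.Adj t w → i ≤ f w → t ∈ Ba := by
    intro t ht w htw hw
    simp only [Ba, mem_filter, mem_univ, true_and]
    refine ⟨ht, ?_⟩
    rcases h3 t with h | h
    · exact h
    · exfalso
      have := h.2 w htw
      omega
  -- good elements
  let A' : Fin k → Finset (Fin N) := fun t => (A t).filter fun y => ∀ w, i + 1 ≤ f w → H.Adj w t →
    Good G r M q (dg H f i w) (A w) y
  have hA' : ∀ t ∈ Ba, n * Ba.card + 1 ≤ (A' t).card := by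
    intro t ht
    simp only [Ba, mem_filter, mem_univ, true_and] at ht
    obtain ⟨hti, htr⟩ := ht
    have e1 : 3 * n * k + 1 ≤ (A t).card := by
      have h4 : dg H f i t < r := by rw [hti] at htr; omega
      have h5 := le_trans (hMq _ h4) ((P5 t hti.ge).1 h4)
      exact_mod_cast h5
    -- the bad elements
    let bad : Fin k → Finset (Fin N) := fun w => if i + 1 ≤ f w ∧ H.Adj w t then
      (A t).filter fun y => ¬ Good G r M q (dg H f i w) (A w) y else ∅
    have hbad : ∀ w, (bad w).card ≤ 2 * n := by
      intro w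
      by_cases hw : i + 1 ≤ f w ∧ H.Adj w t
      · simp only [bad, if_pos hw]
        obtain ⟨hw1, hw2⟩ := hw
        have hd : dg H f i w + 1 ≤ r := by
          have e2 : dg H f (i + 1) w = dg H f i w + 1 := dg_succ_of_adj H f hti hw2
            (fun t' ht' hwt' => h2 w t' t hwt' hw2 (by omega) (by omega))
          have e3 := dg_mono H f hw1 w
          have e4 := hle w
          omega
        have hdis : Disjoint (A t) (A w) := hAdisj t w hti.ge (by omega) (by rintro rfl; omega)
        have e5 := (P5 w (by omega)).1 (by omega)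
        by_contra hc
        push Not at hc
        set W := (A t).filter fun y => ¬ Good G r M q (dg H f i w) (A w) y with hWdef
        have hWs : W ⊆ A t := filter_subset _ _
        have hng : ∀ y ∈ W, ¬ ((dg H f i w + 1 < r →
            (M : ℝ) * q ^ (dg H f i w + 1) ≤ ((A w).filter fun a => G.Adj y a).card) ∧
            0 < ((A w).filter fun a => G.Adj y a).card) := by
          intro y hy hgood
          apply (mem_filter.1 hy).2
          exact ⟨(A w).filter fun a => G.Adj y a, filter_subset _ _,
            fun a ha => by simp [ha], hgood.1, hgood.2⟩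
        by_cases hlast : dg H f i w + 1 < r
        · have e6 : (3 * n * k + 1 : ℝ) ≤ q * (A w).card := by
            have e7 := hMq _ hlast
            rw [pow_succ] at e7
            have e8 := mul_le_mul_of_nonneg_left e5 hq0.le
            calc (3 * n * k + 1 : ℝ) ≤ M * (q ^ dg H f i w * q) := e7
              _ = q * (M * q ^ dg H f i w) := by ring
              _ ≤ _ := e8
          obtain ⟨S1, hS1, S2, hS2, c1, c2, c3⟩ := Pool.Agent.TH974.DegLog.sparse_pair G n W (A w) q
            hq0 hq hc.le hn (by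
              intro y hy
              have e9 := hng y hy
              by_contra hcon
              push Not at hcon
              apply e9
              constructor
              · intro _
                refine le_trans ?_ hcon.le
                have e8 := mul_le_mul_of_nonneg_left e5 hq0.le
                calc (M : ℝ) * q ^ (dg H f i w + 1) = q * (M * q ^ dg H f i w) := by
                      rw [pow_succ]; ring
                  _ ≤ _ := e8
              · have : (0 : ℝ) < ((A w).filter fun b => G.Adj y b).card :=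
                  lt_of_le_of_lt (by positivity) hcon
                exact_mod_cast this) (hs _ (by nlinarith))
          obtain ⟨a, ha, b, hb, hab⟩ := hG S1 S2 (hdis.mono (hS1.trans hWs) hS2) c1 c2
          exact c3 a ha b hb hab
        · have e6 : n ≤ (A w).card := by
            have e7 := le_trans (hMq _ (by omega : dg H f i w < r)) e5
            have e8 : 3 * n * k + 1 ≤ (A w).card := by exact_mod_cast e7
            have hk : 1 ≤ k := by
              have := w.2
              omega
            nlinarith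
          obtain ⟨a, ha, b, hb, hab⟩ := hG W (A w) (hdis.mono_left hWs) (by omega) e6
          apply hng a ha
          refine ⟨fun h => absurd h hlast, ?_⟩
          rw [card_pos]
          exact ⟨b, mem_filter.2 ⟨hb, hab⟩⟩
      · simp only [bad, if_neg hw, card_empty]
        omega
    have hsub : A t ⊆ A' t ∪ univ.biUnion bad := by
      intro y hy
      by_cases hy' : y ∈ A' t
      · exact mem_union_left _ hy'
      · apply mem_union_right
        simp only [A', mem_filter, hy, true_and] at hy'
        push Not at hy'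
        obtain ⟨w, hw1, hw2, hw3⟩ := hy'
        rw [mem_biUnion]
        refine ⟨w, mem_univ _, ?_⟩
        simp only [bad]
        rw [if_pos ⟨hw1, hw2⟩, mem_filter]
        exact ⟨hy, hw3⟩
    have hcard : (A t).card ≤ (A' t).card + k * (2 * n) := by
      refine (card_le_card hsub).trans ((card_union_le _ _).trans ?_)
      apply Nat.add_le_add_left
      refine card_biUnion_le.trans ?_
      refine (sum_le_sum fun w _ => hbad w).trans ?_
      rw [sum_const, card_univ, Fintype.card_fin, smul_eq_mul]
    have hBk : Ba.card ≤ k := by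
      refine (card_le_univ _).trans ?_
      rw [Fintype.card_fin]
    have e6 : n * Ba.card ≤ n * k := Nat.mul_le_mul_left _ hBk
    have e7 : 3 * n * k + 1 = 3 * (n * k) + 1 := by ring
    have e8 : k * (2 * n) = 2 * (n * k) := by ring
    rw [e7] at e1
    rw [e8] at hcard
    omega
  obtain ⟨xb, hxb1, hxb2⟩ := forest G H g x hn hG hg Ba A'
    (fun s hs t ht hst => by
      simp only [Ba, mem_filter, mem_univ, true_and] at hs ht
      exact (hAdisj s t hs.1.ge ht.1.ge hst).mono (filter_subset _ _) (filter_subset _ _))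
    hA' (fun v hv u hu u' hu' hvu hvu' hgu hgu' => by
      simp only [Ba, mem_filter, mem_univ, true_and] at hv hu hu'
      exact h1 v u u' hvu hvu' (by omega) (by omega) hgu hgu')
  have hne' : ∀ t, ∃ y, i ≤ f t → y ∈ A t := by
    intro t
    by_cases h : i ≤ f t
    · obtain ⟨y, hy⟩ := card_pos.1 (P5 t h).2
      exact ⟨y, fun _ => hy⟩
    · exact ⟨x t, fun h' => absurd h' h⟩
  choose yb hyb using hne'
  let xn : Fin k → Fin N := fun v => if f v < i then x v else if v ∈ Ba then xb v else yb v
  have xn1 : ∀ v, f v < i → xn v = x v := fun v hv => by simp only [xn, if_pos hv]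
  have xn2 : ∀ v, v ∈ Ba → xn v = xb v := fun v hv => by
    have hv' := hv
    simp only [Ba, mem_filter, mem_univ, true_and] at hv'
    simp only [xn]
    rw [if_neg (by omega), if_pos hv]
  have xn3 : ∀ v, f v = i → xn v ∈ A v := fun v hv => by
    by_cases h : v ∈ Ba
    · rw [xn2 v h]
      exact (mem_filter.1 (hxb1 v h)).1
    · simp only [xn]
      rw [if_neg (by omega), if_neg h]
      exact hyb v hv.ge
  let An : Fin k → Finset (Fin N) := fun w =>
    (A w).filter fun a => ∀ t, f t = i → H.Adj w t → G.Adj (xn t) a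
  refine ⟨xn, An, ?_, ?_, ?_, ?_, ?_⟩
  · intro v hv
    rcases Nat.lt_succ_iff_lt_or_eq.1 hv with h | h
    · rw [xn1 v h]; exact P1 v h
    · exact P3 v h.ge (xn3 v h)
  · intro u v hu hv huv
    rcases Nat.lt_succ_iff_lt_or_eq.1 hu with h | h
    · rcases Nat.lt_succ_iff_lt_or_eq.1 hv with h' | h'
      · rw [xn1 u h, xn1 v h']
        exact P2 u v h h' huv
      · rw [xn1 u h]
        exact P4 v h'.ge u h huv.symm _ (xn3 v h')
    · rcases Nat.lt_succ_iff_lt_or_eq.1 hv with h' | h'
      · rw [xn1 v h']
        exact (P4 u h.ge v h' huv _ (xn3 u h)).symm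
      · have hu' := hBa u h v huv h'.ge
        have hv' := hBa v h' u huv.symm h.ge
        rw [xn2 u hu', xn2 v hv']
        exact hxb2 u hu' v hv' huv
  · intro w hw
    exact (filter_subset _ _).trans (P3 w (by omega))
  · intro w hw u hu hwu a ha
    simp only [An, mem_filter] at ha
    rcases Nat.lt_succ_iff_lt_or_eq.1 hu with h | h
    · rw [xn1 u h]
      exact P4 w (by omega) u h hwu a ha.1
    · exact ha.2 u h hwu
  · intro w hw
    by_cases h : ∃ t, f t = i ∧ H.Adj w t
    · obtain ⟨t, ht, hwt⟩ := h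
      have hu : ∀ t', f t' = i → H.Adj w t' → t' = t := fun t' ht' hwt' =>
        h2 w t' t hwt' hwt (by omega) (by omega)
      rw [dg_succ_of_adj H f ht hwt hu]
      have htB := hBa t ht w hwt.symm (by omega)
      obtain ⟨S', hS', hS1, hS2, hS3⟩ := (mem_filter.1 (hxb1 t htB)).2 w hw hwt
      have h5 : An w = S' := by
        ext a
        simp only [An, mem_filter]
        constructor
        · rintro ⟨ha, h6⟩
          have h7 := h6 t ht hwt
          rw [xn2 t htB] at h7
          exact (hS1 a ha).1 h7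
        · intro ha
          refine ⟨hS' ha, fun t' ht' hwt' => ?_⟩
          rw [hu t' ht' hwt', xn2 t htB]
          exact (hS1 a (hS' ha)).2 ha
      rw [h5]
      exact ⟨hS2, hS3⟩
    · push Not at h
      rw [dg_succ_of_none H f h]
      have h5 : An w = A w := by
        simp only [An]
        apply filter_true_of_mem
        intro a _ t ht hwt
        exact absurd hwt (h t ht)
      rw [h5]
      exact P5 w (by omega)

/-- **Main theorem** in terms of orderings. -/
theorem core (r k : ℕ) (hr : 1 ≤ r) (H : SimpleGraph (Fin k))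
    (hH : OrdBlocks H r) :
    ∃ C : ℝ, ∀ n N : ℕ, 2 ≤ n → C * (n : ℝ) ^ r / Real.log n ^ (r - 1) ≤ N →
      ∀ G : SimpleGraph (Fin N), H.IsContained G ∨
        (completeBipartiteGraph (Fin n) (Fin n)).IsContained Gᶜ := by
  classical
  obtain ⟨f, g, hg, hb1, hb2, hb3⟩ := hH
  rcases Nat.eq_zero_or_pos k with rfl | hk
  · exact ⟨0, fun n N _ _ G => Or.inl ⟨⟨⟨fun i => i.elim0, fun {a} => a.elim0⟩,
      fun a => a.elim0⟩⟩⟩
  refine ⟨(16 : ℝ) ^ (r - 1) * (k * (3 * k + 2)), ?_⟩
  intro n N hn hN G
  by_cases hcon : (completeBipartiteGraph (Fin n) (Fin n)).IsContained Gᶜ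
  · exact Or.inr hcon
  left
  have hG : NoHole G n := Pool.Agent.TH974.DegLog.noK_of G n hcon
  have hk' : (1 : ℝ) ≤ k := by exact_mod_cast hk
  have hnr : (2 : ℝ) ≤ n := by exact_mod_cast hn
  have hn0 : (0 : ℝ) < n := by linarith
  set L := Real.log n with hL
  have hLpos : 0 < L := Real.log_pos (by linarith)
  set w := Real.sqrt n with hw
  have hwpos : 0 < w := Real.sqrt_pos.2 hn0
  have hww : w * w = n := Real.mul_self_sqrt hn0.le
  have hLw : L / 2 ≤ w := by
    have h1 : Real.log w ≤ w - 1 := Real.log_le_sub_one_of_pos hwpos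
    have h2 : L = Real.log w + Real.log w := by
      rw [← Real.log_mul hwpos.ne' hwpos.ne', hww]
    linarith
  have hLn : L ≤ n := by
    have := Real.log_le_sub_one_of_pos hn0
    linarith
  have hexp : Real.exp (L / 2) = w := by
    have h1 : Real.exp (L / 2) * Real.exp (L / 2) = n := by
      rw [← Real.exp_add, add_halves, hL, Real.exp_log hn0]
    rw [hw, ← h1]
    exact (Real.sqrt_mul_self (Real.exp_pos _).le).symm
  set M := N / k with hM
  have hkM : k * M ≤ N := Nat.mul_div_le N k
  have hkM' : N < k * (M + 1) := Nat.lt_mul_div_succ N hk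
  have hkMr : (N : ℝ) ≤ k * (M + 1) := by exact_mod_cast hkM'.le
  obtain ⟨e⟩ : Nonempty (Fin k × Fin M ↪ Fin N) :=
    Function.Embedding.nonempty_of_card_le (by simpa using hkM)
  set W : Fin k → Finset (Fin N) := fun i => univ.image fun a : Fin M => e (i, a) with hWdef
  have hWc : ∀ i, (W i).card = M := by
    intro i
    rw [hWdef]
    dsimp only
    rw [card_image_of_injective]
    · simp
    · intro a b hab
      have := e.injective hab
      simpa using this
  have hWd : ∀ i j, i ≠ j → Disjoint (W i) (W j) := by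
    intro i j hij
    rw [disjoint_left]
    intro x hx hy
    obtain ⟨a, -, ha⟩ := mem_image.1 hx
    obtain ⟨b, -, hb⟩ := mem_image.1 hy
    have h3 := e.injective (ha.trans hb.symm)
    exact hij (congrArg Prod.fst h3)
  set q : ℝ := L / (16 * n) with hq
  have hq0 : 0 < q := by positivity
  have hq1 : q ≤ 1 / 16 := by
    rw [hq, div_le_div_iff₀ (by positivity) (by norm_num)]
    linarith
  have hqn : q * (16 * n) = L := by
    rw [hq]
    field_simp
  have h1 : (3 * n * k + 1 : ℝ) ≤ M * q ^ (r - 1) := by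
    have hqp : 0 ≤ q ^ (r - 1) := by positivity
    have hqp1 : q ^ (r - 1) ≤ 1 := pow_le_one₀ hq0.le (by linarith)
    have h3 : (k * (3 * k + 2) : ℝ) * n ≤ N * q ^ (r - 1) := by
      have h4 := mul_le_mul_of_nonneg_right hN hqp
      refine le_trans (le_of_eq ?_) h4
      rw [hq, div_pow, mul_pow]
      have h5 : (n : ℝ) ^ r = (n : ℝ) ^ (r - 1) * n := by
        rw [← pow_succ]
        congr 1
        omega
      rw [h5]
      have h6 : L ^ (r - 1) ≠ 0 := by positivity
      field_simp
    have h5 : (k : ℝ) * ((3 * k + 2) * n) ≤ k * ((M + 1) * q ^ (r - 1)) := by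
      have := mul_le_mul_of_nonneg_right hkMr hqp
      nlinarith
    have h6 := le_of_mul_le_mul_left h5 (by linarith)
    nlinarith
  have h2 : ∀ s : ℝ, (2 * n * k + 1 : ℝ) ≤ q * s → (n : ℝ) ≤ (1 - 4 * q) ^ n * s / 2 := by
    intro s hs
    have hs0 : 0 < s := by
      by_contra hc
      push Not at hc
      have : q * s ≤ 0 := mul_nonpos_of_nonneg_of_nonpos hq0.le hc
      have : (0 : ℝ) ≤ 2 * n * k := by positivity
      linarith
    have h3 : Real.exp (-(8 * q)) ≤ 1 - 4 * q := by
      have h4 : 1 + 8 * q ≤ Real.exp (8 * q) := by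
        have := Real.add_one_le_exp (8 * q)
        linarith
      rw [Real.exp_neg]
      rw [inv_le_comm₀ (Real.exp_pos _) (by linarith)]
      refine le_trans ?_ h4
      rw [inv_le_iff_one_le_mul₀ (by linarith)]
      nlinarith
    have h4 : w⁻¹ ≤ (1 - 4 * q) ^ n := by
      refine le_trans (le_of_eq ?_) (pow_le_pow_left₀ (Real.exp_pos _).le h3 n)
      rw [← Real.exp_nat_mul, ← hexp, ← Real.exp_neg]
      congr 1
      linarith
    have h5 : 16 * (n * w) ≤ s := by
      have h6 : (2 * n : ℝ) ≤ q * s := by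
        have : (2 * n : ℝ) * 1 ≤ 2 * n * k := mul_le_mul_of_nonneg_left hk' (by positivity)
        linarith
      have h7 : (2 * n : ℝ) * (16 * n) ≤ L * s := by
        have := mul_le_mul_of_nonneg_right h6 (by positivity : (0 : ℝ) ≤ 16 * n)
        rw [← hqn]
        linarith
      have h8 : L * s ≤ 2 * w * s := mul_le_mul_of_nonneg_right (by linarith) hs0.le
      have h9 : 2 * w * (16 * (n * w)) ≤ 2 * w * s := by
        have : 2 * w * (16 * (n * w)) = 2 * n * (16 * (w * w)) := by ring
        rw [this, hww]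
        linarith
      exact le_of_mul_le_mul_left h9 (by positivity)
    have h10 : w⁻¹ * s ≤ (1 - 4 * q) ^ n * s := mul_le_mul_of_nonneg_right h4 hs0.le
    have h11 : w⁻¹ * (16 * (n * w)) ≤ w⁻¹ * s := mul_le_mul_of_nonneg_left h5 (by positivity)
    have h12 : w⁻¹ * (16 * (n * w)) = 16 * n := by
      field_simp
    linarith
  have hMpos : 0 < M := by
    rcases Nat.eq_zero_or_pos M with h0 | h0
    · exfalso
      rw [h0] at h1
      have : (0 : ℝ) ≤ 3 * n * k := by positivity
      norm_num at h1
      linarith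
    · exact h0
  have hWne : ∀ v, ∃ a, a ∈ W v := fun v => card_pos.1 (by rw [hWc]; exact hMpos)
  choose x0 hx0 using hWne
  have key : ∀ i, ∃ x A, Inv r M q H G f W i x A := by
    intro i
    induction i with
    | zero =>
      refine ⟨x0, W, ?_, ?_, ?_, ?_, ?_⟩
      · intro v hv; omega
      · intro u v hu; omega
      · intro w _; exact Subset.rfl
      · intro w _ u hu; omega
      · intro w _
        rw [dg_zero, hWc]
        refine ⟨fun _ => ?_, hMpos⟩
        simp
    | succ i ih =>
      obtain ⟨x, A, hI⟩ := ih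
      refine step H G f g W (by omega) hG hg hb1 hb2 (fun v => ?_) hWd hq0 (by linarith) h1 h2 i x A hI
      rw [← dg_ncard]
      exact hb3 v
  obtain ⟨x, A, P1, P2, -⟩ := key (univ.sup f + 1)
  have hall : ∀ v, f v < univ.sup f + 1 := fun v =>
    Nat.lt_succ_of_le (le_sup (f := f) (mem_univ v))
  refine ⟨⟨⟨x, fun {u v} huv => P2 u v (hall u) (hall v) huv⟩, ?_⟩⟩
  intro u v huv
  by_contra hne
  have h4 := P1 u (hall u)
  have h5 := P1 v (hall v)
  have huv' : x u = x v := huv
  rw [huv'] at h4
  exact disjoint_left.1 (hWd u v hne) h4 h5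

end Pool.Agent.V5helper14.FB.Lg
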