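import Mathlib

/-!
# Project FB (MP_cdbf1d_co): `R(H, K_{n,n}) = O(n ^ r)` for ordered partitions into forests

Definitions and statements of the jobs. Prove a job as `theorem t_XX : S_XX` in
`Pool/Agent/V5<you>/FB/XX.lean` importing this file.
-/

set_option autoImplicit false

namespace Pool.Agent.V5helper14.FB

open Finset

/-- `H` has an ordered partition into blocks (`f v` is the number of the block of `v`) which induce
forests, such that no vertex has two neighbours in the same earlier block, and every vertex has at
most `r - 1` neighbours in earlier blocks, or it has at most `r` neighbours in earlier blocks and no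
other neighbours. -/
def ForestBlocks {V : Type} (H : SimpleGraph V) (r : ℕ) : Prop :=
  ∃ f : V → ℕ, (∀ i, (H.induce {v | f v = i}).IsAcyclic) ∧
    (∀ v u u', H.Adj v u → H.Adj v u' → f u = f u' → f u < f v → u = u') ∧
    (∀ v, Set.ncard {u | H.Adj v u ∧ f u < f v} + 1 ≤ r ∨
      (Set.ncard {u | H.Adj v u ∧ f u < f v} ≤ r ∧ ∀ u, H.Adj v u → f u < f v))

/-- The same with an ordering `g` such that every vertex has at most one `g`-earlier neighbour in its
own block (instead of: the blocks induce forests). -/
def OrdBlocks {k : ℕ} (H : SimpleGraph (Fin k)) (r : ℕ) : Prop :=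
  ∃ f g : Fin k → ℕ, Function.Injective g ∧
    (∀ v u u', H.Adj v u → H.Adj v u' → f u = f v → f u' = f v → g u < g v → g u' < g v → u = u') ∧
    (∀ v u u', H.Adj v u → H.Adj v u' → f u = f u' → f u < f v → u = u') ∧
    (∀ v, Set.ncard {u | H.Adj v u ∧ f u < f v} + 1 ≤ r ∨
      (Set.ncard {u | H.Adj v u ∧ f u < f v} ≤ r ∧ ∀ u, H.Adj v u → f u < f v))

/-- no bipartite hole of size `n`: there is an edge between any two disjoint sets with `n` elements -/
def NoHole {N : ℕ} (G : SimpleGraph (Fin N)) (n : ℕ) : Prop :=
  ∀ A B : Finset (Fin N), Disjoint A B → n ≤ A.card → n ≤ B.card → ∃ a ∈ A, ∃ b ∈ B, G.Adj a b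

/-- JOB HOLE (30 lines). If the complement has no `K_{n,n}` then there is no bipartite hole. -/
def S_HOLE : Prop :=
  ∀ (N n : ℕ) (G : SimpleGraph (Fin N)),
    ¬ (completeBipartiteGraph (Fin n) (Fin n)).IsContained Gᶜ → NoHole G n

/-- JOB DEG (80 lines). Choose disjoint subsets `A_1, ..., A_m` of `A` with `n` elements each. For every
`j` fewer than `n` elements `x` of `X` have no neighbour in `A_j` (`NoHole`). Double counting: the sum
over `x` of the number `z x` of the `j` without a neighbour of `x` in `A_j` is `< m n` (if `m ≥ 1`). If
`2 |N(x) ∩ A| < m` then `z x > m / 2`, `2 z x ≥ m + 1`. So fewer than `2 n` such `x` (if `m = 0`: none, and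
`0 < 2 n`). (Finite sets can be split with `Finset.exists_subset_card_eq` and induction on `m`: maybe
induction on `m` with the statement for the sum is the easiest.) -/
def S_DEG : Prop :=
  ∀ (N n m : ℕ) (G : SimpleGraph (Fin N)) [DecidableRel G.Adj], 1 ≤ n → NoHole G n →
    ∀ A X : Finset (Fin N), Disjoint A X → m * n ≤ A.card →
      (X.filter fun x => 2 * (A.filter fun a => G.Adj x a).card < m).card < 2 * n

/-- JOB FOREST (80 lines). Transversal embedding of a forest. Induction on `B.card`: let `t` be the
element of `B` with the largest `g t`; it has at most one `H`-neighbour `s` in `B`. Replace `A s` by the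
set of its elements with a neighbour in `A t`: fewer than `n` elements are lost (`NoHole`, as
`n ≤ (A t).card`). Apply the induction hypothesis to `B.erase t`, then choose `x t`. -/
def S_FOREST : Prop :=
  ∀ (N k n : ℕ) (G : SimpleGraph (Fin N)) (H : SimpleGraph (Fin k)) (g : Fin k → ℕ), 1 ≤ n →
    NoHole G n → Function.Injective g → ∀ (B : Finset (Fin k)) (A : Fin k → Finset (Fin N)),
    (∀ s ∈ B, ∀ t ∈ B, s ≠ t → Disjoint (A s) (A t)) → (∀ t ∈ B, n * B.card + 1 ≤ (A t).card) →
    (∀ v ∈ B, ∀ u ∈ B, ∀ u' ∈ B, H.Adj v u → H.Adj v u' → g u < g v → g u' < g v → u = u') →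
    ∃ x : Fin k → Fin N, (∀ t ∈ B, x t ∈ A t) ∧ ∀ s ∈ B, ∀ t ∈ B, H.Adj s t → G.Adj (x s) (x t)

/-- JOB ACY (100 lines). A finite forest has an ordering in which every vertex has at most one earlier
neighbour. (Induction on the number of vertices: a vertex of degree at most one exists
(`SimpleGraph.IsTree.exists_vert_degree_one_of_nontrivial` for the connected component, or: an acyclic
graph has fewer edges than vertices), put it last; or take distances to roots in the components:
`g v` = (distance from a chosen root of the component of `v`) times `k` plus `v`; two neighbours `u ≠ u'`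
of `v` which are both closer or equally close to the root give a cycle.) -/
def S_ACY : Prop :=
  ∀ (V : Type) [Finite V] (H : SimpleGraph V), H.IsAcyclic →
    ∃ g : V → ℕ, Function.Injective g ∧
      ∀ v u u', H.Adj v u → H.Adj v u' → g u < g v → g u' < g v → u = u'

/-- JOB CONV (50 lines, uses ACY). From the blocks being forests to the ordering `g`: apply ACY to
every `H.induce {v | f v = i}` and combine: `g v = (f v) * M + g_{f v} v` with `M` larger than all the
values (finitely many blocks are not empty). -/
def S_CONV : Prop :=
  ∀ (r k : ℕ) (H : SimpleGraph (Fin k)), ForestBlocks H r → OrdBlocks H r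

/-- JOB CORE (150 lines, uses DEG, FOREST; helper14). -/
def S_CORE : Prop :=
  ∀ (r k : ℕ) (H : SimpleGraph (Fin k)), OrdBlocks H r → ∃ c : ℕ, ∀ (n N : ℕ), 1 ≤ n →
    c * n ^ r ≤ N → ∀ G : SimpleGraph (Fin N), NoHole G n → H.IsContained G

/-- The product of the graphs `T i`: two vertices are adjacent if they differ in exactly one
coordinate `i`, and these coordinates are adjacent in `T i`. -/
def prodG {r : ℕ} {V : Fin r → Type} (T : (i : Fin r) → SimpleGraph (V i)) :
    SimpleGraph ((i : Fin r) → V i) where
  Adj x y := ∃ i, (T i).Adj (x i) (y i) ∧ ∀ j, j ≠ i → x j = y j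
  symm := ⟨fun _ _ ⟨i, h, h'⟩ => ⟨i, h.symm, fun j hj => (h' j hj).symm⟩⟩
  loopless := ⟨fun x ⟨i, h, _⟩ => (T i).loopless.irrefl _ h⟩

/-- JOB PROD (120 lines, uses ACY). The product of `r + 1` finite forests is in the class for `r + 1`.
With orderings `g i : V i → ℕ` of the first `r` forests (at most one earlier neighbour, ACY) and `M` larger
than all their values take `f x = ∑ i : Fin r, g i (x i) * M ^ i` (sum over the first `r` coordinates).
Then `f x` determines the first `r` coordinates, the block of `x` is a copy of the last forest, and a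
neighbour of `x` in an earlier block differs from `x` in one of the first `r` coordinates, which is
replaced by its earlier neighbour: at most `r` neighbours, in different blocks. -/
def S_PROD : Prop :=
  ∀ (r : ℕ) (V : Fin (r + 1) → Type) [∀ i, Finite (V i)] (T : (i : Fin (r + 1)) → SimpleGraph (V i)),
    (∀ i, (T i).IsAcyclic) → ForestBlocks (prodG T) (r + 1)

/-- JOB MONO (60 lines). The class is closed under isomorphism and under subgraphs: if `H` (on
`Fin k`) is contained in a graph of the class, it is in the class. (`f` composed with the injective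
homomorphism; a graph which maps injectively into a forest is a forest.) -/
def S_MONO : Prop :=
  ∀ (r k : ℕ) (H : SimpleGraph (Fin k)) (V : Type) [Finite V] (H' : SimpleGraph V),
    H.IsContained H' → ForestBlocks H' r → ForestBlocks H r

end Pool.Agent.V5helper14.FB
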