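import Pool.Agent.V5helper14.FB.Stm
import Pool.Agent.V5helper70.FB.FOREST

/-!
# Project FB: job CORE
-/

set_option autoImplicit false

namespace Pool.Agent.V5helper14.FB

open Finset

/-- The job FOREST, with a map `x0` (so `N` is not zero, or `k` is zero). -/
theorem forest {N k n : ℕ} (G : SimpleGraph (Fin N)) (H : SimpleGraph (Fin k)) (g : Fin k → ℕ)
    (x0 : Fin k → Fin N) (hn : 1 ≤ n)
    (hG : NoHole G n) (hg : Function.Injective g) (B : Finset (Fin k)) (A : Fin k → Finset (Fin N))
    (h1 : ∀ s ∈ B, ∀ t ∈ B, s ≠ t → Disjoint (A s) (A t)) (h2 : ∀ t ∈ B, n * B.card + 1 ≤ (A t).card)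
    (h3 : ∀ v ∈ B, ∀ u ∈ B, ∀ u' ∈ B, H.Adj v u → H.Adj v u' → g u < g v → g u' < g v → u = u') :
    ∃ x : Fin k → Fin N, (∀ t ∈ B, x t ∈ A t) ∧ ∀ s ∈ B, ∀ t ∈ B, H.Adj s t → G.Adj (x s) (x t) := by
  rcases B.eq_empty_or_nonempty with rfl | hB
  · exact ⟨x0, by simp, by simp⟩
  · exact Pool.Agent.V5helper70.FB.t_FOREST_ne N k n G H g hn hG hg B hB A h1 h2 h3

section

variable {r k : ℕ} (H : SimpleGraph (Fin k)) (f : Fin k → ℕ)

open Classical in
/-- number of neighbours of `w` in the blocks before `i` -/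
noncomputable def dg (i : ℕ) (w : Fin k) : ℕ := (univ.filter fun u => H.Adj w u ∧ f u < i).card

theorem dg_ncard (w : Fin k) : Set.ncard {u | H.Adj w u ∧ f u < f w} = dg H f (f w) w := by
  classical
  unfold dg
  rw [Set.ncard_eq_toFinset_card']
  congr 1
  ext u
  simp

theorem dg_zero (w : Fin k) : dg H f 0 w = 0 := by
  classical
  unfold dg
  simp

theorem dg_mono {i j : ℕ} (h : i ≤ j) (w : Fin k) : dg H f i w ≤ dg H f j w := by
  classical
  unfold dg
  apply card_le_card
  intro u hu
  rw [mem_filter] at hu ⊢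
  exact ⟨hu.1, hu.2.1, lt_of_lt_of_le hu.2.2 h⟩

theorem dg_succ_of_none {i : ℕ} {w : Fin k} (h : ∀ t, f t = i → ¬ H.Adj w t) :
    dg H f (i + 1) w = dg H f i w := by
  classical
  unfold dg
  congr 1
  ext u
  simp only [mem_filter, mem_univ, true_and]
  constructor
  · rintro ⟨h1, h2⟩
    refine ⟨h1, ?_⟩
    rcases Nat.lt_succ_iff_lt_or_eq.1 h2 with h3 | h3
    · exact h3
    · exact absurd h1 (h u h3)
  · rintro ⟨h1, h2⟩
    exact ⟨h1, by omega⟩

theorem dg_succ_of_adj {i : ℕ} {w t : Fin k} (ht : f t = i) (hwt : H.Adj w t)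
    (hu : ∀ t', f t' = i → H.Adj w t' → t' = t) : dg H f (i + 1) w = dg H f i w + 1 := by
  classical
  unfold dg
  have : (univ.filter fun u => H.Adj w u ∧ f u < i + 1) =
      insert t (univ.filter fun u => H.Adj w u ∧ f u < i) := by
    ext u
    simp only [mem_filter, mem_univ, true_and, mem_insert]
    constructor
    · rintro ⟨h1, h2⟩
      rcases Nat.lt_succ_iff_lt_or_eq.1 h2 with h3 | h3
      · exact Or.inr ⟨h1, h3⟩
      · exact Or.inl (hu u h3 h1)
    · rintro (rfl | ⟨h1, h2⟩)
      · exact ⟨hwt, by omega⟩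
      · exact ⟨h1, by omega⟩
  rw [this, card_insert_of_notMem]
  simp [ht]

end

/-- The invariant of the embedding. -/
def Inv {r k n N : ℕ} (H : SimpleGraph (Fin k)) (G : SimpleGraph (Fin N)) (f : Fin k → ℕ)
    (V : Fin k → Finset (Fin N)) (i : ℕ) (x : Fin k → Fin N) (A : Fin k → Finset (Fin N)) : Prop :=
  (∀ v, f v < i → x v ∈ V v) ∧
  (∀ u v, f u < i → f v < i → H.Adj u v → G.Adj (x u) (x v)) ∧
  (∀ w, i ≤ f w → A w ⊆ V w) ∧
  (∀ w, i ≤ f w → ∀ u, f u < i → H.Adj w u → ∀ a ∈ A w, G.Adj (x u) a) ∧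
  (∀ w, i ≤ f w → (3 * k + 1) * (2 * n) ^ (r - dg H f i w) ≤ (A w).card)

theorem step (hD : S_DEG) {r k n N : ℕ} (H : SimpleGraph (Fin k))
    (G : SimpleGraph (Fin N)) (f g : Fin k → ℕ) (V : Fin k → Finset (Fin N)) (hn : 1 ≤ n)
    (hG : NoHole G n) (hg : Function.Injective g)
    (h1 : ∀ v u u', H.Adj v u → H.Adj v u' → f u = f v → f u' = f v → g u < g v → g u' < g v → u = u')
    (h2 : ∀ v u u', H.Adj v u → H.Adj v u' → f u = f u' → f u < f v → u = u')
    (h3 : ∀ v, dg H f (f v) v + 1 ≤ r ∨ (dg H f (f v) v ≤ r ∧ ∀ u, H.Adj v u → f u < f v))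
    (hV : ∀ s t, s ≠ t → Disjoint (V s) (V t)) (i : ℕ) (x : Fin k → Fin N)
    (A : Fin k → Finset (Fin N)) (hI : Inv (r := r) (n := n) H G f V i x A) :
    ∃ x' A', Inv (r := r) (n := n) H G f V (i + 1) x' A' := by
  classical
  obtain ⟨P1, P2, P3, P4, P5⟩ := hI
  have hle : ∀ v, dg H f (f v) v ≤ r := fun v => by
    rcases h3 v with h | h
    · omega
    · exact h.1
  have hAdisj : ∀ s t, i ≤ f s → i ≤ f t → s ≠ t → Disjoint (A s) (A t) := fun s t hs ht hst =>
    (hV s t hst).mono (P3 s hs) (P3 t ht)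
  -- the vertices of the block which have few earlier neighbours
  let Ba : Finset (Fin k) := univ.filter fun t => f t = i ∧ dg H f (f t) t + 1 ≤ r
  -- vertices with a later neighbour or a neighbour in the block are in `Ba`
  have hBa : ∀ t, f t = i → ∀ w, H.Adj t w → i ≤ f w → t ∈ Ba := by
    intro t ht w htw hw
    simp only [Ba, mem_filter, mem_univ, true_and]
    refine ⟨ht, ?_⟩
    rcases h3 t with h | h
    · exact h
    · exfalso
      have := h.2 w htw
      omega
  -- good elements
  let A' : Fin k → Finset (Fin N) := fun t => (A t).filter fun y => ∀ w, i + 1 ≤ f w → H.Adj w t →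
    2 * ((3 * k + 1) * (2 * n) ^ (r - dg H f i w - 1)) ≤ 2 * ((A w).filter fun a => G.Adj y a).card
  have hA' : ∀ t ∈ Ba, n * Ba.card + 1 ≤ (A' t).card := by
    intro t ht
    simp only [Ba, mem_filter, mem_univ, true_and] at ht
    obtain ⟨hti, htr⟩ := ht
    have e1 : (3 * k + 1) * (2 * n) ≤ (A t).card := by
      have := P5 t hti.ge
      refine le_trans ?_ this
      apply Nat.mul_le_mul_left
      have h4 : 1 ≤ r - dg H f i t := by rw [hti] at htr; omega
      calc 2 * n = (2 * n) ^ 1 := (pow_one _).symm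
        _ ≤ (2 * n) ^ (r - dg H f i t) := Nat.pow_le_pow_right (by omega) h4
    -- the bad elements
    let bad : Fin k → Finset (Fin N) := fun w => if i + 1 ≤ f w ∧ H.Adj w t then
      (A t).filter fun y => 2 * ((A w).filter fun a => G.Adj y a).card <
        2 * ((3 * k + 1) * (2 * n) ^ (r - dg H f i w - 1)) else ∅
    have hbad : ∀ w, (bad w).card ≤ 2 * n := by
      intro w
      by_cases hw : i + 1 ≤ f w ∧ H.Adj w t
      · simp only [bad, if_pos hw]
        obtain ⟨hw1, hw2⟩ := hw
        have hd : dg H f i w + 1 ≤ r := by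
          have e2 : dg H f (i + 1) w = dg H f i w + 1 := dg_succ_of_adj H f hti hw2
            (fun t' ht' hwt' => h2 w t' t hwt' hw2 (by omega) (by omega))
          have e3 := dg_mono H f hw1 w
          have e4 := hle w
          omega
        apply le_of_lt
        apply hD N n (2 * ((3 * k + 1) * (2 * n) ^ (r - dg H f i w - 1))) G hn hG (A w) (A t)
        · exact hAdisj w t (by omega) hti.ge (by rintro rfl; omega)
        · have e5 := P5 w (by omega)
          refine le_trans (le_of_eq ?_) e5
          obtain ⟨e, he⟩ : ∃ e, r - dg H f i w = e + 1 := ⟨r - dg H f i w - 1, by omega⟩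
          rw [he, Nat.add_sub_cancel, pow_succ]
          ring
      · simp only [bad, if_neg hw, card_empty]
        omega
    have hsub : A t ⊆ A' t ∪ univ.biUnion bad := by
      intro y hy
      by_cases hy' : y ∈ A' t
      · exact mem_union_left _ hy'
      · apply mem_union_right
        simp only [A', mem_filter, hy, true_and] at hy'
        push Not at hy'
        obtain ⟨w, hw1, hw2, hw3⟩ := hy'
        rw [mem_biUnion]
        refine ⟨w, mem_univ _, ?_⟩
        simp only [bad]
        rw [if_pos ⟨hw1, hw2⟩, mem_filter]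
        exact ⟨hy, hw3⟩
    have hcard : (A t).card ≤ (A' t).card + k * (2 * n) := by
      refine (card_le_card hsub).trans ((card_union_le _ _).trans ?_)
      apply Nat.add_le_add_left
      refine card_biUnion_le.trans ?_
      refine (sum_le_sum fun w _ => hbad w).trans ?_
      rw [sum_const, card_univ, Fintype.card_fin, smul_eq_mul]
    have hBk : Ba.card ≤ k := by
      refine (card_le_univ _).trans ?_
      rw [Fintype.card_fin]
    have e6 : n * Ba.card ≤ n * k := Nat.mul_le_mul_left _ hBk
    have e7 : (3 * k + 1) * (2 * n) = 6 * (n * k) + 2 * n := by ring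
    have e8 : k * (2 * n) = 2 * (n * k) := by ring
    rw [e7] at e1
    rw [e8] at hcard
    omega
  obtain ⟨xb, hxb1, hxb2⟩ := forest G H g x hn hG hg Ba A'
    (fun s hs t ht hst => by
      simp only [Ba, mem_filter, mem_univ, true_and] at hs ht
      exact (hAdisj s t hs.1.ge ht.1.ge hst).mono (filter_subset _ _) (filter_subset _ _))
    hA' (fun v hv u hu u' hu' hvu hvu' hgu hgu' => by
      simp only [Ba, mem_filter, mem_univ, true_and] at hv hu hu'
      exact h1 v u u' hvu hvu' (by omega) (by omega) hgu hgu')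
  have hne : ∀ t, i ≤ f t → ∃ y, y ∈ A t := by
    intro t ht
    have := P5 t ht
    have h4 : 0 < (3 * k + 1) * (2 * n) ^ (r - dg H f i t) := by positivity
    exact card_pos.1 (lt_of_lt_of_le h4 this)
  have hne' : ∀ t, ∃ y, i ≤ f t → y ∈ A t := by
    intro t
    by_cases h : i ≤ f t
    · obtain ⟨y, hy⟩ := hne t h
      exact ⟨y, fun _ => hy⟩
    · exact ⟨x t, fun h' => absurd h' h⟩
  choose yb hyb using hne'
  let xn : Fin k → Fin N := fun v => if f v < i then x v else if v ∈ Ba then xb v else yb v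
  have xn1 : ∀ v, f v < i → xn v = x v := fun v hv => by simp only [xn, if_pos hv]
  have xn2 : ∀ v, v ∈ Ba → xn v = xb v := fun v hv => by
    have hv' := hv
    simp only [Ba, mem_filter, mem_univ, true_and] at hv'
    simp only [xn]
    rw [if_neg (by omega), if_pos hv]
  have xn3 : ∀ v, f v = i → xn v ∈ A v := fun v hv => by
    by_cases h : v ∈ Ba
    · rw [xn2 v h]
      exact (mem_filter.1 (hxb1 v h)).1
    · simp only [xn]
      rw [if_neg (by omega), if_neg h]
      exact hyb v hv.ge
  let An : Fin k → Finset (Fin N) := fun w =>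
    (A w).filter fun a => ∀ t, f t = i → H.Adj w t → G.Adj (xn t) a
  refine ⟨xn, An, ?_, ?_, ?_, ?_, ?_⟩
  · intro v hv
    rcases Nat.lt_succ_iff_lt_or_eq.1 hv with h | h
    · rw [xn1 v h]; exact P1 v h
    · exact P3 v h.ge (xn3 v h)
  · intro u v hu hv huv
    rcases Nat.lt_succ_iff_lt_or_eq.1 hu with h | h
    · rcases Nat.lt_succ_iff_lt_or_eq.1 hv with h' | h'
      · rw [xn1 u h, xn1 v h']
        exact P2 u v h h' huv
      · rw [xn1 u h]
        exact P4 v h'.ge u h huv.symm _ (xn3 v h')
    · rcases Nat.lt_succ_iff_lt_or_eq.1 hv with h' | h'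
      · rw [xn1 v h']
        exact (P4 u h.ge v h' huv _ (xn3 u h)).symm
      · have hu' := hBa u h v huv h'.ge
        have hv' := hBa v h' u huv.symm h.ge
        rw [xn2 u hu', xn2 v hv']
        exact hxb2 u hu' v hv' huv
  · intro w hw
    exact (filter_subset _ _).trans (P3 w (by omega))
  · intro w hw u hu hwu a ha
    simp only [An, mem_filter] at ha
    rcases Nat.lt_succ_iff_lt_or_eq.1 hu with h | h
    · rw [xn1 u h]
      exact P4 w (by omega) u h hwu a ha.1
    · exact ha.2 u h hwu
  · intro w hw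
    by_cases h : ∃ t, f t = i ∧ H.Adj w t
    · obtain ⟨t, ht, hwt⟩ := h
      have hu : ∀ t', f t' = i → H.Adj w t' → t' = t := fun t' ht' hwt' =>
        h2 w t' t hwt' hwt (by omega) (by omega)
      rw [dg_succ_of_adj H f ht hwt hu]
      have htB := hBa t ht w hwt.symm (by omega)
      have h4 := (mem_filter.1 (hxb1 t htB)).2 w hw hwt
      have h5 : An w = (A w).filter fun a => G.Adj (xb t) a := by
        simp only [An]
        apply filter_congr
        intro a _
        constructor
        · intro h6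
          rw [← xn2 t htB]
          exact h6 t ht hwt
        · intro h6 t' ht' hwt'
          rw [hu t' ht' hwt', xn2 t htB]
          exact h6
      rw [h5, ← Nat.sub_sub]
      omega
    · push Not at h
      rw [dg_succ_of_none H f h]
      have h5 : An w = A w := by
        simp only [An]
        apply filter_true_of_mem
        intro a _ t ht hwt
        exact absurd hwt (h t ht)
      rw [h5]
      exact P5 w (by omega)

theorem t_CORE (hD : S_DEG) : S_CORE := by
  classical
  rintro r k H ⟨f, g, hg, h1, h2, h3⟩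
  refine ⟨k * (3 * k + 1) * 2 ^ r, fun n N hn hN G hG => ?_⟩
  let s : ℕ := (3 * k + 1) * (2 * n) ^ r
  have hs : 0 < s := by positivity
  have hks : k * s ≤ N := by
    refine le_trans (le_of_eq ?_) hN
    simp only [s]
    rw [mul_pow]
    ring
  have hlt : ∀ (v : Fin k) (j : Fin s), (v : ℕ) * s + j < N := by
    intro v j
    have h4 : ((v : ℕ) + 1) * s ≤ k * s := Nat.mul_le_mul_right _ v.2
    have h5 := j.2
    have h6 : ((v : ℕ) + 1) * s = (v : ℕ) * s + s := by ring
    omega
  let V : Fin k → Finset (Fin N) := fun v => univ.map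
    ⟨fun j : Fin s => (⟨(v : ℕ) * s + j, hlt v j⟩ : Fin N), fun j j' h => by
      have := congrArg Fin.val h
      simp only at this
      exact Fin.ext (by omega)⟩
  have hVc : ∀ v, (V v).card = s := fun v => by simp [V]
  have hVm : ∀ v a, a ∈ V v → (a : ℕ) / s = v := by
    intro v a ha
    simp only [V, mem_map, mem_univ, true_and, Function.Embedding.coeFn_mk] at ha
    obtain ⟨j, rfl⟩ := ha
    simp only
    rw [mul_comm, Nat.mul_add_div hs, Nat.div_eq_of_lt j.2, add_zero]
  have hV : ∀ u v, u ≠ v → Disjoint (V u) (V v) := by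
    intro u v huv
    rw [disjoint_left]
    intro a ha hb
    exact huv (Fin.ext ((hVm u a ha).symm.trans (hVm v a hb)))
  have hVne : ∀ v, ∃ a, a ∈ V v := fun v => card_pos.1 (by rw [hVc]; exact hs)
  choose x0 hx0 using hVne
  have key : ∀ i, ∃ x A, Inv (r := r) (n := n) H G f V i x A := by
    intro i
    induction i with
    | zero =>
      refine ⟨x0, V, ?_, ?_, ?_, ?_, ?_⟩
      · intro v hv; omega
      · intro u v hu; omega
      · intro w _; exact Subset.rfl
      · intro w _ u hu; omega
      · intro w _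
        rw [dg_zero, Nat.sub_zero, hVc]
    | succ i ih =>
      obtain ⟨x, A, hI⟩ := ih
      refine step hD H G f g V hn hG hg h1 h2 (fun v => ?_) hV i x A hI
      rw [← dg_ncard]
      exact h3 v
  obtain ⟨x, A, P1, P2, -⟩ := key (univ.sup f + 1)
  have hall : ∀ v, f v < univ.sup f + 1 := fun v =>
    Nat.lt_succ_of_le (le_sup (f := f) (mem_univ v))
  refine ⟨⟨⟨x, fun {u v} huv => P2 u v (hall u) (hall v) huv⟩, ?_⟩⟩
  intro u v huv
  by_contra hne
  have h4 := P1 u (hall u)
  have h5 := P1 v (hall v)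
  have huv' : x u = x v := huv
  rw [huv'] at h4
  exact disjoint_left.1 (hV u v hne) h4 h5

end Pool.Agent.V5helper14.FB
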